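import Pool.Agent.H77.WC.Stm

set_option autoImplicit false

namespace Pool.Agent.H9.WC

open Pool.Agent.H77.WC
open Filter Topology Set MeasureTheory

theorem bd1_intervalIntegrable {g : ℝ → ℂ} (hg : Bd1 g) (a b : ℝ) :
    IntervalIntegrable g volume a b := by
  refine (intervalIntegrable_const (c := (1 : ℂ))).mono_fun hg.1.aestronglyMeasurable ?_
  refine Eventually.of_forall (fun t => ?_)
  simpa using hg.2 t

theorem trig_continuous (s : Finset ℝ) (c : ℝ → ℂ) : Continuous (trig s c) := by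
  unfold trig
  fun_prop

theorem mea (hEXM : S_EXM) : S_MEA := by
  intro Λ g hg hAP
  classical
  set M : ℝ → ℂ := fun T => (∫ t in (0 : ℝ)..T, g t) / (T : ℂ) with hM
  have key : ∀ ε : ℝ, 0 < ε → ∃ m0 : ℂ, ∀ᶠ T in atTop, ‖M T - m0‖ ≤ ε := by
    intro ε hε
    obtain ⟨s, c, -, hs⟩ := hAP (ε / 2) (by positivity)
    have h1 := hEXM s c
    refine ⟨if (0 : ℝ) ∈ s then c 0 else 0, ?_⟩
    have h2 := (Metric.tendsto_nhds.mp h1) (ε / 2) (by positivity)
    filter_upwards [hs, h2, eventually_gt_atTop (0 : ℝ)] with T hT1 hT2 hT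
    rw [dist_eq_norm] at hT2
    have h3 : M T - (if (0 : ℝ) ∈ s then c 0 else 0) =
        (∫ t in (0 : ℝ)..T, (g t - trig s c t)) / (T : ℂ) +
        ((∫ t in (0 : ℝ)..T, trig s c t) / (T : ℂ) - (if (0 : ℝ) ∈ s then c 0 else 0)) := by
      rw [intervalIntegral.integral_sub (bd1_intervalIntegrable hg 0 T)
        ((trig_continuous s c).intervalIntegrable 0 T)]
      simp only [hM]
      ring
    rw [h3]
    refine (norm_add_le _ _).trans ?_
    have h4 : ‖(∫ t in (0 : ℝ)..T, (g t - trig s c t)) / (T : ℂ)‖ ≤ ε / 2 := by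
      rw [norm_div, Complex.norm_real, Real.norm_eq_abs, abs_of_pos hT, div_le_iff₀ hT]
      exact (intervalIntegral.norm_integral_le_integral_norm hT.le).trans hT1
    linarith
  have hC : Cauchy (map M atTop) := by
    rw [Metric.cauchy_iff]
    refine ⟨inferInstance, fun ε hε => ?_⟩
    obtain ⟨m0, h0⟩ := key (ε / 3) (by positivity)
    refine ⟨{z | ‖z - m0‖ ≤ ε / 3}, h0, ?_⟩
    intro x hx y hy
    have h1 : dist x y ≤ dist x m0 + dist y m0 := dist_triangle_right x y m0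
    rw [dist_eq_norm x m0, dist_eq_norm y m0] at h1
    have hx' : ‖x - m0‖ ≤ ε / 3 := hx
    have hy' : ‖y - m0‖ ≤ ε / 3 := hy
    linarith
  obtain ⟨m, hm⟩ := cauchy_iff_exists_le_nhds.mp hC
  exact ⟨m, hm⟩

end Pool.Agent.H9.WC
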